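import Mathlib

set_option autoImplicit false

open Finset

namespace Pool.Agent.Results.MP_be00de_co.LogLogDoubling

variable {G : Type*} [AddCommGroup G] [DecidableEq G]

/-- The additive energy: the number of `(a, b, c, d)` in `A^4` with `a + b = c + d`. -/
def energy (A : Finset G) : ℕ :=
  ((A ×ˢ A ×ˢ A ×ˢ A).filter (fun q => q.1 + q.2.1 = q.2.2.1 + q.2.2.2)).card

/-- Number of solutions of `x + y = z + w` in `X × Y × Z × W`, as a real number. -/
def T (X Y Z W : Finset G) : ℝ :=
  ∑ x ∈ X, ∑ y ∈ Y, ∑ z ∈ Z, ∑ w ∈ W, if x + y = z + w then (1 : ℝ) else 0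

/-- Number of representations of `s` as a sum of two elements of `A`. -/
def rep (A : Finset G) (s : G) : ℝ :=
  ∑ z ∈ A, ∑ w ∈ A, if s = z + w then (1 : ℝ) else 0

lemma energy_eq (A : Finset G) : (energy A : ℝ) = T A A A A := by
  unfold energy T
  rw [Finset.card_filter]
  push_cast
  rw [Finset.sum_product]
  refine Finset.sum_congr rfl fun a _ => ?_
  rw [Finset.sum_product]
  refine Finset.sum_congr rfl fun b _ => ?_
  rw [Finset.sum_product]

lemma T_eq_rep (X Y A : Finset G) : T X Y A A = ∑ x ∈ X, ∑ y ∈ Y, rep A (x + y) := rfl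

lemma T_nonneg (X Y Z W : Finset G) : 0 ≤ T X Y Z W := by
  unfold T; positivity

lemma rep_nonneg (A : Finset G) (s : G) : 0 ≤ rep A s := by
  unfold rep; positivity

lemma ind_nonneg (p : Prop) [Decidable p] : (0 : ℝ) ≤ if p then 1 else 0 := by
  split_ifs <;> norm_num

lemma T_mono {X X' Y Y' Z Z' W W' : Finset G} (h1 : X ⊆ X') (h2 : Y ⊆ Y') (h3 : Z ⊆ Z')
    (h4 : W ⊆ W') : T X Y Z W ≤ T X' Y' Z' W' := by
  unfold T
  refine (Finset.sum_le_sum fun x _ => (Finset.sum_le_sum fun y _ =>
    (Finset.sum_le_sum fun z _ =>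
      (Finset.sum_le_sum_of_subset_of_nonneg h4 fun _ _ _ => ind_nonneg _)).trans
      (Finset.sum_le_sum_of_subset_of_nonneg h3 fun _ _ _ => by positivity)).trans
      (Finset.sum_le_sum_of_subset_of_nonneg h2 fun _ _ _ => by positivity)).trans
      (Finset.sum_le_sum_of_subset_of_nonneg h1 fun _ _ _ => by positivity)

/-- Splitting off one element in each of the four slots. -/
lemma T_split1 {A : Finset G} {x : G} (hx : x ∈ A) (Y Z W : Finset G) :
    T A Y Z W = T {x} Y Z W + T (A.erase x) Y Z W := by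
  unfold T
  rw [Finset.sum_singleton]
  exact (Finset.add_sum_erase A
    (fun a => ∑ y ∈ Y, ∑ z ∈ Z, ∑ w ∈ W, if a + y = z + w then (1 : ℝ) else 0) hx).symm

lemma T_split2 {A : Finset G} {x : G} (hx : x ∈ A) (X Z W : Finset G) :
    T X A Z W = T X {x} Z W + T X (A.erase x) Z W := by
  unfold T
  rw [← Finset.sum_add_distrib]
  refine Finset.sum_congr rfl fun a _ => ?_
  rw [Finset.sum_singleton]
  exact (Finset.add_sum_erase A
    (fun y => ∑ z ∈ Z, ∑ w ∈ W, if a + y = z + w then (1 : ℝ) else 0) hx).symm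

lemma T_split3 {A : Finset G} {x : G} (hx : x ∈ A) (X Y W : Finset G) :
    T X Y A W = T X Y {x} W + T X Y (A.erase x) W := by
  unfold T
  simp_rw [← Finset.sum_add_distrib]
  refine Finset.sum_congr rfl fun a _ => Finset.sum_congr rfl fun b _ => ?_
  rw [Finset.sum_singleton]
  exact (Finset.add_sum_erase A
    (fun z => ∑ w ∈ W, if a + b = z + w then (1 : ℝ) else 0) hx).symm

lemma T_split4 {A : Finset G} {x : G} (hx : x ∈ A) (X Y Z : Finset G) :
    T X Y Z A = T X Y Z {x} + T X Y Z (A.erase x) := by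
  unfold T
  simp_rw [← Finset.sum_add_distrib]
  refine Finset.sum_congr rfl fun a _ => Finset.sum_congr rfl fun b _ =>
    Finset.sum_congr rfl fun c _ => ?_
  rw [Finset.sum_singleton]
  exact (Finset.add_sum_erase A
    (fun w => if a + b = c + w then (1 : ℝ) else 0) hx).symm

/-- Degree. -/
def deg (A : Finset G) (x : G) : ℝ := ∑ y ∈ A, rep A (x + y)

lemma T1 (A : Finset G) (x : G) : T {x} A A A = deg A x := by
  simp [T, deg, rep]

lemma T2 (A : Finset G) (x : G) : T A {x} A A = deg A x := by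
  simp only [T, deg, rep, Finset.sum_singleton]
  refine Finset.sum_congr rfl fun a _ => ?_
  rw [add_comm]

lemma T3 (A : Finset G) (x : G) : T A A {x} A = deg A x := by
  simp only [T, deg, rep, Finset.sum_singleton]
  rw [Finset.sum_congr rfl fun a _ => Finset.sum_comm]
  rw [Finset.sum_comm]
  refine Finset.sum_congr rfl fun a _ => Finset.sum_congr rfl fun b _ =>
    Finset.sum_congr rfl fun c _ => ?_
  simp only [eq_comm]

lemma T4 (A : Finset G) (x : G) : T A A A {x} = deg A x := by
  simp only [T, deg, rep, Finset.sum_singleton]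
  rw [Finset.sum_congr rfl fun a _ => Finset.sum_comm]
  rw [Finset.sum_comm]
  refine Finset.sum_congr rfl fun a _ => Finset.sum_congr rfl fun b _ =>
    Finset.sum_congr rfl fun c _ => ?_
  rw [add_comm a x]
  simp only [eq_comm]

lemma T13 (A : Finset G) (x : G) : T {x} A {x} A = A.card := by
  simp only [T, Finset.sum_singleton, add_right_inj]
  simp

lemma T23 (A : Finset G) (x : G) : T A {x} {x} A = A.card := by
  simp only [T, Finset.sum_singleton]
  simp only [add_comm _ x, add_right_inj]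
  simp

lemma T24 (A : Finset G) (x : G) : T A {x} A {x} = A.card := by
  simp only [T, Finset.sum_singleton, add_left_inj]
  simp

/-- Removing one element from `A` destroys at most `4 deg x - 3 |A|` quadruples. -/
lemma T_erase {A : Finset G} {x : G} (hx : x ∈ A) :
    T A A A A - T (A.erase x) (A.erase x) (A.erase x) (A.erase x) ≤
      4 * deg A x - 3 * A.card := by
  have hB : A.erase x ⊆ A := Finset.erase_subset _ _
  have e1 := T_split1 hx A A A
  have e2 := T_split3 hx (A.erase x) A A
  have e3 := T_split2 hx (A.erase x) (A.erase x) A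
  have e4 := T_split4 hx (A.erase x) (A.erase x) (A.erase x)
  have b2 : T (A.erase x) A {x} A = deg A x - A.card := by
    have := T_split1 hx A {x} A
    rw [T3, T13] at this
    linarith
  have b3 : T (A.erase x) {x} (A.erase x) A ≤ deg A x - A.card := by
    have h := T_split3 hx A {x} A
    rw [T2, T23] at h
    have h' := T_mono hB (le_refl ({x} : Finset G)) (le_refl (A.erase x)) (le_refl A)
    linarith
  have b4 : T (A.erase x) (A.erase x) (A.erase x) {x} ≤ deg A x - A.card := by
    have h := T_split2 hx A A {x}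
    rw [T4, T24] at h
    have h' := T_mono hB (le_refl (A.erase x)) hB (le_refl ({x} : Finset G))
    linarith
  rw [T1] at e1
  linarith

/-- Cauchy–Schwarz for coincidences. -/
lemma cs {ι κ : Type*} (I : Finset ι) (J : Finset κ) (f : ι → G) (g : κ → G) :
    (∑ i ∈ I, ∑ j ∈ J, if f i = g j then (1 : ℝ) else 0) ^ 2 ≤
      (∑ i ∈ I, ∑ i' ∈ I, if f i = f i' then (1 : ℝ) else 0) *
      (∑ j ∈ J, ∑ j' ∈ J, if g j = g j' then (1 : ℝ) else 0) := by
  classical
  set S : Finset G := I.image f ∪ J.image g with hS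
  set c : G → ℝ := fun s => ∑ i ∈ I, if f i = s then (1 : ℝ) else 0 with hc
  set d : G → ℝ := fun s => ∑ j ∈ J, if g j = s then (1 : ℝ) else 0 with hd
  have hf : ∀ h : G → ℝ, ∑ i ∈ I, h (f i) = ∑ s ∈ S, c s * h s := by
    intro h
    simp only [hc, Finset.sum_mul]
    rw [Finset.sum_comm]
    refine Finset.sum_congr rfl fun i hi => ?_
    have hiS : f i ∈ S := by
      rw [hS]; exact Finset.mem_union_left _ (Finset.mem_image_of_mem _ hi)
    simp only [ite_mul, one_mul, zero_mul]
    rw [Finset.sum_ite_eq]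
    simp [hiS]
  have hg : ∀ h : G → ℝ, ∑ j ∈ J, h (g j) = ∑ s ∈ S, d s * h s := by
    intro h
    simp only [hd, Finset.sum_mul]
    rw [Finset.sum_comm]
    refine Finset.sum_congr rfl fun i hi => ?_
    have hiS : g i ∈ S := by
      rw [hS]; exact Finset.mem_union_right _ (Finset.mem_image_of_mem _ hi)
    simp only [ite_mul, one_mul, zero_mul]
    rw [Finset.sum_ite_eq]
    simp [hiS]
  have e1 : (∑ i ∈ I, ∑ j ∈ J, if f i = g j then (1 : ℝ) else 0) = ∑ s ∈ S, c s * d s := by
    rw [← hf d]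
    refine Finset.sum_congr rfl fun i _ => ?_
    simp only [hd]
    refine Finset.sum_congr rfl fun j _ => ?_
    simp only [eq_comm]
  have e2 : (∑ i ∈ I, ∑ i' ∈ I, if f i = f i' then (1 : ℝ) else 0) = ∑ s ∈ S, c s ^ 2 := by
    have : ∑ s ∈ S, c s ^ 2 = ∑ s ∈ S, c s * c s := Finset.sum_congr rfl fun s _ => by ring
    rw [this, ← hf c]
    refine Finset.sum_congr rfl fun i _ => ?_
    simp only [hc]
    refine Finset.sum_congr rfl fun j _ => ?_
    simp only [eq_comm]
  have e3 : (∑ i ∈ J, ∑ i' ∈ J, if g i = g i' then (1 : ℝ) else 0) = ∑ s ∈ S, d s ^ 2 := by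
    have : ∑ s ∈ S, d s ^ 2 = ∑ s ∈ S, d s * d s := Finset.sum_congr rfl fun s _ => by ring
    rw [this, ← hg d]
    refine Finset.sum_congr rfl fun i _ => ?_
    simp only [hd]
    refine Finset.sum_congr rfl fun j _ => ?_
    simp only [eq_comm]
  rw [e1, e2, e3]
  exact Finset.sum_mul_sq_le_sq_mul_sq _ _ _

lemma cs1 (X Y A : Finset G) : (T X Y A A) ^ 2 ≤ T X Y X Y * T A A A A := by
  have := cs (X ×ˢ Y) (A ×ˢ A) (fun p => p.1 + p.2) (fun p => p.1 + p.2)
  simp only [Finset.sum_product] at this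
  exact this

lemma cs2 (X Y : Finset G) : (T X Y X Y) ^ 2 ≤ T X X X X * T Y Y Y Y := by
  have h := cs (X ×ˢ X) (Y ×ˢ Y) (fun p => p.1 - p.2) (fun p => p.2 - p.1)
  simp only [Finset.sum_product] at h
  have e1 : T X Y X Y = ∑ x ∈ X, ∑ x_1 ∈ X, ∑ x_2 ∈ Y, ∑ x_3 ∈ Y,
      if x - x_1 = x_3 - x_2 then (1 : ℝ) else 0 := by
    unfold T
    refine Finset.sum_congr rfl fun a _ => ?_
    rw [Finset.sum_comm]
    refine Finset.sum_congr rfl fun b _ => Finset.sum_congr rfl fun c _ =>
      Finset.sum_congr rfl fun d _ => ?_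
    have : a + c = b + d ↔ a - b = d - c := by
      constructor
      · intro h; rw [sub_eq_sub_iff_add_eq_add, h, add_comm]
      · intro h; rw [sub_eq_sub_iff_add_eq_add] at h; rw [h, add_comm]
    simp only [this]
  have e2 : T X X X X = ∑ x ∈ X, ∑ x_1 ∈ X, ∑ x_2 ∈ X, ∑ x_3 ∈ X,
      if x - x_1 = x_2 - x_3 then (1 : ℝ) else 0 := by
    unfold T
    refine Finset.sum_congr rfl fun a _ => ?_
    rw [Finset.sum_congr rfl fun b _ => Finset.sum_comm]
    rw [Finset.sum_comm]
    refine Finset.sum_congr rfl fun b _ => ?_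
    rw [Finset.sum_comm]
    refine Finset.sum_congr rfl fun c _ =>
      Finset.sum_congr rfl fun d _ => ?_
    have : a + d = c + b ↔ a - b = c - d := by
      constructor
      · intro h; rw [sub_eq_sub_iff_add_eq_add, h]
      · intro h; rw [sub_eq_sub_iff_add_eq_add] at h; rw [h]
    simp only [this]
  have e3 : T Y Y Y Y = ∑ x ∈ Y, ∑ x_1 ∈ Y, ∑ x_2 ∈ Y, ∑ x_3 ∈ Y,
      if x_1 - x = x_3 - x_2 then (1 : ℝ) else 0 := by
    unfold T
    refine Finset.sum_congr rfl fun a _ => ?_
    rw [Finset.sum_congr rfl fun b _ => Finset.sum_comm]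
    rw [Finset.sum_comm]
    refine Finset.sum_congr rfl fun b _ => ?_
    rw [Finset.sum_comm]
    refine Finset.sum_congr rfl fun c _ =>
      Finset.sum_congr rfl fun d _ => ?_
    have : a + d = c + b ↔ b - a = d - c := by
      constructor
      · intro h; rw [sub_eq_sub_iff_add_eq_add, add_comm b c, ← h, add_comm]
      · intro h; rw [sub_eq_sub_iff_add_eq_add] at h; rw [add_comm a d, ← h, add_comm]
    simp only [this]
  rw [e1, e2, e3]
  convert h using 3

/-- The basic inequality: `T(X, Y, A, A)^4 ≤ E(X) E(Y) E(A)^2`. -/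
lemma gcs (X Y A : Finset G) :
    (T X Y A A) ^ 4 ≤ T X X X X * T Y Y Y Y * (T A A A A) ^ 2 := by
  have h1 := cs1 X Y A
  have h2 := cs2 X Y
  have h3 : ((T X Y A A) ^ 2) ^ 2 ≤ (T X Y X Y * T A A A A) ^ 2 :=
    pow_le_pow_left₀ (by positivity) h1 2
  have h4 : (T X Y X Y * T A A A A) ^ 2 = (T X Y X Y) ^ 2 * (T A A A A) ^ 2 := by ring
  have h5 : (T X Y X Y) ^ 2 * (T A A A A) ^ 2 ≤ T X X X X * T Y Y Y Y * (T A A A A) ^ 2 :=
    mul_le_mul_of_nonneg_right h2 (by positivity)
  calc (T X Y A A) ^ 4 = ((T X Y A A) ^ 2) ^ 2 := by ring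
    _ ≤ _ := h3
    _ = _ := h4
    _ ≤ _ := h5


lemma inner_le_one (A : Finset G) (s c : G) :
    ∑ w ∈ A, (if s = c + w then (1 : ℝ) else 0) ≤ 1 := by
  have h : ∀ w ∈ A, (if s = c + w then (1 : ℝ) else 0) = if w = s - c then 1 else 0 := by
    intro w _
    have : s = c + w ↔ w = s - c := by
      constructor
      · intro h; rw [h]; abel
      · intro h; rw [h]; abel
    simp only [this]
  rw [Finset.sum_congr rfl h, Finset.sum_ite_eq']
  split_ifs <;> norm_num

lemma rep_le (A : Finset G) (s : G) : rep A s ≤ A.card := by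
  unfold rep
  calc ∑ z ∈ A, ∑ w ∈ A, (if s = z + w then (1 : ℝ) else 0) ≤ ∑ z ∈ A, 1 :=
        Finset.sum_le_sum fun z _ => inner_le_one A s z
    _ = A.card := by simp

lemma T_pair_le (X Y A : Finset G) : T X Y A A ≤ X.card * Y.card * A.card := by
  rw [T_eq_rep]
  calc ∑ x ∈ X, ∑ y ∈ Y, rep A (x + y) ≤ ∑ x ∈ X, ∑ y ∈ Y, (A.card : ℝ) :=
        Finset.sum_le_sum fun x _ => Finset.sum_le_sum fun y _ => rep_le A _
    _ = X.card * Y.card * A.card := by simp; ring

lemma T_cube (A : Finset G) : T A A A A ≤ (A.card : ℝ) ^ 3 := by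
  refine (T_pair_le A A A).trans (le_of_eq (by ring))

lemma T_pos {A : Finset G} (hA : A.Nonempty) : 0 < T A A A A := by
  obtain ⟨a, ha⟩ := hA
  have h := T_mono (Finset.singleton_subset_iff.2 ha) (Finset.singleton_subset_iff.2 ha)
    (Finset.singleton_subset_iff.2 ha) (Finset.singleton_subset_iff.2 ha)
  have : T ({a} : Finset G) {a} {a} {a} = 1 := by rw [T13]; simp
  linarith

lemma deg_sum (A : Finset G) : ∑ x ∈ A, deg A x = T A A A A := rfl

/-- `A` maximises `E(B) / |B|^(2.99)` among its nonempty subsets. -/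
def Ext (A : Finset G) : Prop :=
  A.Nonempty ∧ ∀ B ⊆ A, B.Nonempty →
    T B B B B / (B.card : ℝ) ^ (299 / 100 : ℝ) ≤ T A A A A / (A.card : ℝ) ^ (299 / 100 : ℝ)

lemma exists_ext {A : Finset G} (hA : A.Nonempty) :
    ∃ B ⊆ A, Ext B ∧
      T A A A A / (A.card : ℝ) ^ (299 / 100 : ℝ) ≤ T B B B B / (B.card : ℝ) ^ (299 / 100 : ℝ) := by
  classical
  set S : Finset (Finset G) := A.powerset.filter (fun B => B.Nonempty) with hS
  have hSne : S.Nonempty := ⟨A, by simp [hS, hA]⟩
  obtain ⟨B, hB, hmax⟩ := Finset.exists_max_image S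
    (fun B => T B B B B / (B.card : ℝ) ^ (299 / 100 : ℝ)) hSne
  rw [hS, Finset.mem_filter, Finset.mem_powerset] at hB
  refine ⟨B, hB.1, ⟨hB.2, ?_⟩, ?_⟩
  · intro C hC hCne
    exact hmax C (by rw [hS, Finset.mem_filter, Finset.mem_powerset]; exact ⟨hC.trans hB.1, hCne⟩)
  · exact hmax A (by rw [hS, Finset.mem_filter, Finset.mem_powerset]; exact ⟨le_rfl, hA⟩)

lemma Ext.card_pos {A : Finset G} (h : Ext A) : (0 : ℝ) < A.card := by
  exact_mod_cast Finset.card_pos.2 h.1

lemma Ext.le {A : Finset G} (h : Ext A) {B : Finset G} (hB : B ⊆ A) :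
    T B B B B ≤ ((B.card : ℝ) / A.card) ^ (299 / 100 : ℝ) * T A A A A := by
  rcases B.eq_empty_or_nonempty with rfl | hne
  · have : T (∅ : Finset G) ∅ ∅ ∅ = 0 := by simp [T]
    rw [this]
    have := T_nonneg A A A A
    positivity
  · have h1 := h.2 B hB hne
    have hb : (0 : ℝ) < B.card := by exact_mod_cast Finset.card_pos.2 hne
    have ha := h.card_pos
    have hbp : (0 : ℝ) < (B.card : ℝ) ^ (299 / 100 : ℝ) := Real.rpow_pos_of_pos hb _
    have hap : (0 : ℝ) < (A.card : ℝ) ^ (299 / 100 : ℝ) := Real.rpow_pos_of_pos ha _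
    rw [Real.div_rpow hb.le ha.le]
    rw [div_le_div_iff₀ hbp hap] at h1
    rw [div_mul_eq_mul_div, le_div_iff₀ hap]
    linarith

lemma rpow_bound {t : ℝ} (h0 : 0 ≤ t) (h1 : t ≤ 1) :
    (1 - t) ^ (299 / 100 : ℝ) ≤ (1 - t) ^ 2 * (1 - 99 / 100 * t) := by
  rcases eq_or_lt_of_le h1 with rfl | hlt
  · norm_num
  · have hpos : (0 : ℝ) < 1 - t := by linarith
    have e : (299 / 100 : ℝ) = 2 + 99 / 100 := by norm_num
    rw [e, Real.rpow_add hpos, Real.rpow_two]
    refine mul_le_mul_of_nonneg_left ?_ (by positivity)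
    have := _root_.rpow_one_add_le_one_add_mul_self (s := -t) (by linarith) (p := 99 / 100)
      (by norm_num) (by norm_num)
    have e2 : (1 : ℝ) + -t = 1 - t := by ring
    rw [e2] at this
    linarith

/-- Every element of an extremal set has large degree. -/
lemma Ext.deg_le {A : Finset G} (h : Ext A) {x : G} (hx : x ∈ A) :
    299 / 400 * (T A A A A / A.card) ≤ deg A x := by
  have hn := h.card_pos
  have h1 := T_erase hx
  have h2 := h.le (Finset.erase_subset x A)
  have hcard : ((A.erase x).card : ℝ) = A.card - 1 := by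
    rw [Finset.card_erase_of_mem hx]
    have : 1 ≤ A.card := Finset.card_pos.2 ⟨x, hx⟩
    push_cast [Nat.cast_sub this]
    ring
  set n : ℝ := (A.card : ℝ) with hnd
  set e : ℝ := T A A A A with he
  have hn1 : 1 ≤ n := by
    rw [hnd]; exact_mod_cast Finset.card_pos.2 ⟨x, hx⟩
  have e3 : ((A.erase x).card : ℝ) / n = 1 - 1 / n := by
    rw [hcard]; field_simp
  rw [e3] at h2
  have hb := rpow_bound (t := 1 / n) (by positivity) (by rw [div_le_one hn]; exact hn1)
  have he0 : 0 ≤ e := T_nonneg _ _ _ _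
  have hcube : e ≤ n ^ 3 := T_cube A
  have h4 : T (A.erase x) (A.erase x) (A.erase x) (A.erase x) ≤
      (1 - 1 / n) ^ 2 * (1 - 99 / 100 * (1 / n)) * e :=
    h2.trans (mul_le_mul_of_nonneg_right hb he0)
  have h5 : (1 - 1 / n) ^ 2 * (1 - 99 / 100 * (1 / n)) * e =
      e - 299 / 100 * (e / n) + 298 / 100 * (e / n ^ 2) - 99 / 100 * (e / n ^ 3) := by
    field_simp
    ring
  have h6 : e / n ^ 2 ≤ n := by
    rw [div_le_iff₀ (by positivity)]
    calc e ≤ n ^ 3 := hcube
      _ = n * n ^ 2 := by ring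
  have h7 : 0 ≤ e / n ^ 3 := by positivity
  have hx' : (0:ℝ) ≤ n := hn.le
  linarith

/-- Mixed energies inside an extremal set. -/
lemma Ext.mixed {A : Finset G} (h : Ext A) {X Y : Finset G} (hX : X ⊆ A) (hY : Y ⊆ A) :
    (T X Y A A / T A A A A) ^ 4 ≤
      ((X.card : ℝ) / A.card * ((Y.card : ℝ) / A.card)) ^ (299 / 100 : ℝ) := by
  have he := T_pos h.1
  have h1 := gcs X Y A
  have hx := h.le hX
  have hy := h.le hY
  rw [div_pow, div_le_iff₀ (by positivity), Real.mul_rpow (by positivity) (by positivity)]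
  set a : ℝ := ((X.card : ℝ) / A.card) ^ (299 / 100 : ℝ) with ha
  set b : ℝ := ((Y.card : ℝ) / A.card) ^ (299 / 100 : ℝ) with hb
  have ha0 : 0 ≤ a := by positivity
  have hb0 : 0 ≤ b := by positivity
  calc (T X Y A A) ^ 4 ≤ T X X X X * T Y Y Y Y * (T A A A A) ^ 2 := h1
    _ ≤ (a * T A A A A) * (b * T A A A A) * (T A A A A) ^ 2 := by
        refine mul_le_mul_of_nonneg_right (mul_le_mul hx hy (T_nonneg _ _ _ _) (by positivity))
          (by positivity)
    _ = a * b * T A A A A ^ 4 := by ring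

open scoped Pointwise

lemma sum_rep (A : Finset G) (h : G → ℝ) :
    ∑ x ∈ A, ∑ y ∈ A, h (x + y) = ∑ s ∈ A + A, rep A s * h s := by
  unfold rep
  simp only [Finset.sum_mul]
  symm
  rw [Finset.sum_comm]
  refine Finset.sum_congr rfl fun x hx => ?_
  rw [Finset.sum_comm]
  refine Finset.sum_congr rfl fun y hy => ?_
  simp only [ite_mul, one_mul, zero_mul]
  rw [Finset.sum_ite_eq']
  rw [if_pos (Finset.add_mem_add hx hy)]

lemma sum_rep_one (A : Finset G) : ∑ s ∈ A + A, rep A s = (A.card : ℝ) ^ 2 := by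
  have := sum_rep A (fun _ => 1)
  simp only [mul_one] at this
  rw [← this]
  simp
  ring

lemma sum_rep_sq (A : Finset G) : ∑ s ∈ A + A, rep A s * rep A s = T A A A A := by
  rw [← sum_rep A (rep A)]
  rfl

/-- If all sums are popular, then the sumset is small. -/
lemma card_add_le {A : Finset G} {ρ : ℝ} (hA : A.Nonempty)
    (h : ∀ x ∈ A, ∀ y ∈ A, ρ * A.card ≤ rep A (x + y)) :
    ((A + A).card : ℝ) * ρ ≤ A.card := by
  have hn : (0 : ℝ) < A.card := by exact_mod_cast Finset.card_pos.2 hA
  have h1 : ∑ s ∈ A + A, ρ * A.card ≤ ∑ s ∈ A + A, rep A s := by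
    refine Finset.sum_le_sum fun s hs => ?_
    obtain ⟨x, hx, y, hy, rfl⟩ := Finset.mem_add.1 hs
    exact h x hx y hy
  rw [sum_rep_one, Finset.sum_const, nsmul_eq_mul] at h1
  have h2 : ((A + A).card : ℝ) * ρ * A.card ≤ A.card * A.card := by nlinarith
  exact le_of_mul_le_mul_right h2 hn

lemma rep_eq_card (A : Finset G) (s : G) :
    rep A s = ((A.filter (fun a => s - a ∈ A)).card : ℝ) := by
  unfold rep
  rw [Finset.card_filter]
  push_cast
  refine Finset.sum_congr rfl fun z _ => ?_
  have h : ∀ w ∈ A, (if s = z + w then (1 : ℝ) else 0) = if w = s - z then 1 else 0 := by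
    intro w _
    have : s = z + w ↔ w = s - z := by
      constructor
      · intro h; rw [h]; abel
      · intro h; rw [h]; abel
    simp only [this]
  rw [Finset.sum_congr rfl h, Finset.sum_ite_eq']

lemma sum_diff (A : Finset G) (x : G) :
    ∑ z ∈ A, ((A.filter (fun a => a + (x - z) ∈ A)).card : ℝ) = deg A x := by
  unfold deg rep
  have h : ∀ z ∈ A, ((A.filter (fun a => a + (x - z) ∈ A)).card : ℝ) =
      ∑ y ∈ A, ∑ w ∈ A, if x + y = z + w then (1 : ℝ) else 0 := by
    intro z _
    rw [Finset.card_filter]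
    push_cast
    refine Finset.sum_congr rfl fun a _ => ?_
    have h : ∀ w ∈ A, (if x + a = z + w then (1 : ℝ) else 0) =
        if w = a + (x - z) then 1 else 0 := by
      intro w _
      have : x + a = z + w ↔ w = a + (x - z) := by
        constructor
        · intro h
          have : w = (z + w) - z := by abel
          rw [this, ← h]; abel
        · intro h; rw [h]; abel
      simp only [this]
    rw [Finset.sum_congr rfl h, Finset.sum_ite_eq']
  rw [Finset.sum_congr rfl h, Finset.sum_comm]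

lemma rep_triangle (A : Finset G) (x y z : G) :
    rep A (z + y) + ((A.filter (fun a => a + (x - z) ∈ A)).card : ℝ) - A.card ≤
      rep A (x + y) := by
  rw [rep_eq_card, rep_eq_card]
  set U := A.filter (fun a => z + y - a ∈ A) with hU
  set V := A.filter (fun a => a + (x - z) ∈ A) with hV
  set W := A.filter (fun a => x + y - a ∈ A) with hW
  have h1 : (U ∩ V).card ≤ W.card := by
    refine Finset.card_le_card_of_injOn (fun a => a + (x - z)) ?_ ?_
    · intro a ha
      simp only [Finset.coe_inter, Set.mem_inter_iff, Finset.mem_coe, hU, hV,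
        Finset.mem_filter] at ha
      simp only [Finset.mem_coe, hW, Finset.mem_filter]
      refine ⟨ha.2.2, ?_⟩
      have : x + y - (a + (x - z)) = z + y - a := by abel
      rw [this]; exact ha.1.2
    · intro a _ b _ hab
      simpa using hab
  have h2 : U.card + V.card ≤ A.card + (U ∩ V).card := by
    rw [← Finset.card_union_add_card_inter]
    exact Nat.add_le_add_right (Finset.card_le_card
      (Finset.union_subset (Finset.filter_subset _ _) (Finset.filter_subset _ _))) _
  have h3 : (U.card : ℝ) + V.card ≤ A.card + (U ∩ V).card := by exact_mod_cast h2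
  have h4 : ((U ∩ V).card : ℝ) ≤ W.card := by exact_mod_cast h1
  linarith

lemma rep_lower (A : Finset G) (x y : G) :
    deg A x + deg A y - (A.card : ℝ) ^ 2 ≤ A.card * rep A (x + y) := by
  have h1 : ∑ z ∈ A, (rep A (z + y) +
      ((A.filter (fun a => a + (x - z) ∈ A)).card : ℝ) - A.card) ≤
      ∑ z ∈ A, rep A (x + y) := Finset.sum_le_sum fun z _ => rep_triangle A x y z
  rw [Finset.sum_sub_distrib, Finset.sum_add_distrib, sum_diff, Finset.sum_const,
    Finset.sum_const, nsmul_eq_mul, nsmul_eq_mul] at h1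
  have h2 : ∑ z ∈ A, rep A (z + y) = deg A y := by
    unfold deg
    refine Finset.sum_congr rfl fun z _ => ?_
    rw [add_comm]
  rw [h2] at h1
  nlinarith

/-- Bootstrapping of the degree when all sums are popular. -/
lemma deg_boot {A : Finset G} {ρ : ℝ} (hA : A.Nonempty)
    (h : ∀ x ∈ A, ∀ y ∈ A, ρ * A.card ≤ rep A (x + y)) {x : G} (hx : x ∈ A) :
    ρ * A.card * ((A.card : ℝ) ^ 2 - deg A x) ≤ (A.card : ℝ) ^ 3 - T A A A A := by
  have hn : (0 : ℝ) < A.card := by exact_mod_cast Finset.card_pos.2 hA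
  have e1 : (A.card : ℝ) ^ 3 - T A A A A = ∑ s ∈ A + A, rep A s * (A.card - rep A s) := by
    have : ∀ s ∈ A + A, rep A s * (A.card - rep A s) = A.card * rep A s - rep A s * rep A s := by
      intro s _; ring
    rw [Finset.sum_congr rfl this, Finset.sum_sub_distrib, ← Finset.mul_sum, sum_rep_one,
      sum_rep_sq]
    ring
  have e2 : (A.card : ℝ) ^ 2 - deg A x = ∑ y ∈ A, ((A.card : ℝ) - rep A (x + y)) := by
    rw [Finset.sum_sub_distrib, Finset.sum_const, nsmul_eq_mul]
    unfold deg
    ring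
  rw [e1, e2, Finset.mul_sum]
  calc ∑ y ∈ A, ρ * A.card * ((A.card : ℝ) - rep A (x + y))
      ≤ ∑ y ∈ A, rep A (x + y) * ((A.card : ℝ) - rep A (x + y)) :=
        Finset.sum_le_sum fun y hy =>
          mul_le_mul_of_nonneg_right (h x hx y hy) (by linarith [rep_le A (x + y)])
    _ = ∑ s ∈ A.image (fun y => x + y), rep A s * ((A.card : ℝ) - rep A s) := by
        rw [Finset.sum_image]
        intro a _ b _ hab
        simpa using hab
    _ ≤ _ := by
        refine Finset.sum_le_sum_of_subset_of_nonneg ?_ ?_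
        · intro s hs
          obtain ⟨y, hy, rfl⟩ := Finset.mem_image.1 hs
          exact Finset.add_mem_add hx hy
        · intro s _ _
          exact mul_nonneg (rep_nonneg A s) (by linarith [rep_le A s])

/-- The case of very large energy. -/
lemma small_case {A : Finset G} (hA : Ext A) {k : ℝ} (hk1 : 1 ≤ k) (hk2 : k ≤ 7 / 5)
    (hk : (A.card : ℝ) ^ 3 = k * T A A A A) :
    ((A + A).card : ℝ) ≤ k ^ 100 * A.card := by
  have hn := hA.card_pos
  have he := T_pos hA.1
  have hk0 : 0 < k := by linarith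
  set n : ℝ := (A.card : ℝ) with hnd
  set e : ℝ := T A A A A with hed
  set m : ℝ := ((A + A).card : ℝ) with hmd
  have hm0 : 0 ≤ m := by positivity
  have hek : e / n = n ^ 2 / k := by
    field_simp
    linarith
  have hdeg : ∀ x ∈ A, 299 / 400 * (n ^ 2 / k) ≤ deg A x := by
    intro x hx
    have := hA.deg_le hx
    rwa [← hnd, ← hed, hek] at this
  set ρ : ℝ := 299 / 200 / k - 1 with hρ
  have hrep : ∀ x ∈ A, ∀ y ∈ A, ρ * n ≤ rep A (x + y) := by
    intro x hx y hy
    have h1 := rep_lower A x y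
    have h2 := hdeg x hx
    have h3 := hdeg y hy
    have h4 : n * (ρ * n) ≤ n * rep A (x + y) := by
      have : n * (ρ * n) = 299 / 200 * (n ^ 2 / k) - n ^ 2 := by
        rw [hρ]; ring
      rw [this]
      linarith
    exact le_of_mul_le_mul_left h4 hn
  have hρpos : 0 < ρ := by
    rw [hρ, sub_pos, lt_div_iff₀ hk0]
    linarith
  have hm1 : m * ρ ≤ n := card_add_le hA.1 hrep
  rcases le_or_gt k (21 / 20) with hks | hkl
  · -- bootstrapped bound
    have hρ2 : 423 / 1000 ≤ ρ := by
      rw [hρ, le_sub_iff_add_le, le_div_iff₀ hk0]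
      linarith
    have hrep2 : ∀ x ∈ A, ∀ y ∈ A, (1 - 2 * (k - 1) / (423 / 1000)) * n ≤ rep A (x + y) := by
      intro x hx y hy
      have h1 := rep_lower A x y
      have bx := deg_boot hA.1 hrep hx
      have byy := deg_boot hA.1 hrep hy
      have hke : n ^ 3 - e ≤ (k - 1) * n ^ 3 := by
        have : e = n ^ 3 / k := by field_simp; linarith
        rw [this]
        have h5 : n ^ 3 - n ^ 3 / k = n ^ 3 * ((k - 1) / k) := by field_simp
        rw [h5, mul_comm]
        refine mul_le_mul_of_nonneg_right ?_ (pow_pos hn 3).le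
        rw [div_le_iff₀ hk0]
        nlinarith
      have key : ∀ z ∈ A, n ^ 2 - deg A z ≤ (k - 1) / (423 / 1000) * n ^ 2 := by
        intro z hz
        have bz := deg_boot hA.1 hrep hz
        have h6 : ρ * n * (n ^ 2 - deg A z) ≤ (k - 1) * n ^ 3 := bz.trans hke
        have h7 : ρ * (n ^ 2 - deg A z) ≤ (k - 1) * n ^ 2 := by
          have : n * (ρ * (n ^ 2 - deg A z)) ≤ n * ((k - 1) * n ^ 2) := by nlinarith
          exact le_of_mul_le_mul_left this hn
        have h8 : 0 ≤ n ^ 2 - deg A z := by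
          have : deg A z ≤ n ^ 2 := by
            unfold deg
            calc ∑ y ∈ A, rep A (z + y) ≤ ∑ y ∈ A, n := Finset.sum_le_sum fun y _ => rep_le A _
              _ = n ^ 2 := by rw [Finset.sum_const, nsmul_eq_mul]; ring
          linarith
        have h9 : 423 / 1000 * (n ^ 2 - deg A z) ≤ (k - 1) * n ^ 2 :=
          (mul_le_mul_of_nonneg_right hρ2 h8).trans h7
        rw [div_mul_eq_mul_div, le_div_iff₀ (by norm_num)]
        linarith
      have kx := key x hx
      have ky := key y hy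
      have h10 : n * ((1 - 2 * (k - 1) / (423 / 1000)) * n) ≤ n * rep A (x + y) := by
        have : n * ((1 - 2 * (k - 1) / (423 / 1000)) * n) =
            n ^ 2 - 2 * ((k - 1) / (423 / 1000) * n ^ 2) := by ring
        rw [this]
        linarith
      exact le_of_mul_le_mul_left h10 hn
    have hm2 : m * (1 - 2 * (k - 1) / (423 / 1000)) ≤ n := card_add_le hA.1 hrep2
    have hb : 1 + 100 * (k - 1) ≤ k ^ 100 := by
      have h := one_add_mul_le_pow (a := k - 1) (by linarith) 100
      have e1 : (1 : ℝ) + (k - 1) = k := by ring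
      rw [e1] at h
      exact_mod_cast h
    have hc : 1 ≤ (1 - 2 * (k - 1) / (423 / 1000)) * (1 + 100 * (k - 1)) := by
      nlinarith
    have hpos : 0 ≤ 1 - 2 * (k - 1) / (423 / 1000) := by
      rw [sub_nonneg, div_le_one (by norm_num)]
      linarith
    calc m = m * 1 := by ring
      _ ≤ m * ((1 - 2 * (k - 1) / (423 / 1000)) * (1 + 100 * (k - 1))) :=
          mul_le_mul_of_nonneg_left hc hm0
      _ = (m * (1 - 2 * (k - 1) / (423 / 1000))) * (1 + 100 * (k - 1)) := by ring
      _ ≤ n * k ^ 100 := mul_le_mul hm2 hb (by nlinarith) hn.le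
      _ = k ^ 100 * n := by ring
  · have hρ3 : 1 / 15 ≤ ρ := by
      rw [hρ, le_sub_iff_add_le, le_div_iff₀ hk0]
      linarith
    have h15 : (15 : ℝ) ≤ k ^ 100 := by
      calc (15 : ℝ) ≤ (21 / 20) ^ 100 := by norm_num
        _ ≤ k ^ 100 := pow_le_pow_left₀ (by norm_num) hkl.le 100
    have h11 : m * (1 / 15) ≤ n := (mul_le_mul_of_nonneg_left hρ3 hm0).trans hm1
    nlinarith

open Classical in
/-- Elements reached from `x` in `j + 1` popular steps. -/
noncomputable def X (A : Finset G) (x : G) : ℕ → Finset G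
  | 0 => A.filter (fun y => 299 / 20000 * T A A A A / (A.card : ℝ) ^ 2 ≤ rep A (x + y))
  | j + 1 => A.filter (fun y =>
      299 / 20000 * T A A A A * ((X A x j).card : ℝ) / (A.card : ℝ) ^ 2 ≤
        ∑ z ∈ X A x j, rep A (z + y))

/-- Weighted number of paths of length `j + 1`. -/
noncomputable def N (A : Finset G) : ℕ → G → G → ℝ
  | 0, x, y => rep A (x + y)
  | j + 1, x, y => ∑ z ∈ A, N A j x z * rep A (z + y)

/-- Number of representations as an alternating sum of `j + 1` sums of two elements of `A`. -/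
noncomputable def F (A : Finset G) : ℕ → G → ℝ
  | 0, u => rep A u
  | j + 1, u => ∑ a ∈ A, ∑ b ∈ A, F A j (u - (-1 : ℤ) ^ (j + 1) • (a + b))

lemma X_sub (A : Finset G) (x : G) (j : ℕ) : X A x j ⊆ A := by
  cases j <;> (unfold X; exact Finset.filter_subset _ _)

lemma N_nonneg (A : Finset G) (j : ℕ) (x y : G) : 0 ≤ N A j x y := by
  induction j generalizing x y with
  | zero => exact rep_nonneg A _
  | succ j ih =>
    unfold N
    exact Finset.sum_nonneg fun z _ => mul_nonneg (ih x z) (rep_nonneg A _)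

lemma F_nonneg (A : Finset G) (j : ℕ) (u : G) : 0 ≤ F A j u := by
  induction j generalizing u with
  | zero => exact rep_nonneg A _
  | succ j ih =>
    unfold F
    exact Finset.sum_nonneg fun a _ => Finset.sum_nonneg fun b _ => ih _

lemma N_le_F (A : Finset G) (j : ℕ) (x y : G) :
    N A j x y ≤ F A j (x - (-1 : ℤ) ^ (j + 1) • y) := by
  induction j generalizing x y with
  | zero => simp [N, F]
  | succ j ih =>
    unfold N F
    calc ∑ z ∈ A, N A j x z * rep A (z + y)
        ≤ ∑ z ∈ A, F A j (x - (-1 : ℤ) ^ (j + 1) • z) * rep A (z + y) :=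
          Finset.sum_le_sum fun z _ => mul_le_mul_of_nonneg_right (ih x z) (rep_nonneg A _)
      _ = ∑ a ∈ A, ∑ b ∈ A, ∑ z ∈ A,
            (if z = a + b - y then F A j (x - (-1 : ℤ) ^ (j + 1) • z) else 0) := by
          unfold rep
          simp only [Finset.mul_sum]
          rw [Finset.sum_comm]
          refine Finset.sum_congr rfl fun a _ => ?_
          rw [Finset.sum_comm]
          refine Finset.sum_congr rfl fun b _ => ?_
          refine Finset.sum_congr rfl fun z _ => ?_
          have : z + y = a + b ↔ z = a + b - y := by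
            constructor
            · intro h; rw [← h]; abel
            · intro h; rw [h]; abel
          simp only [this, mul_ite, mul_one, mul_zero]
      _ ≤ ∑ a ∈ A, ∑ b ∈ A, F A j (x - (-1 : ℤ) ^ (j + 1) • (a + b - y)) := by
          refine Finset.sum_le_sum fun a _ => Finset.sum_le_sum fun b _ => ?_
          rw [Finset.sum_ite_eq']
          split_ifs
          · exact le_refl _
          · exact F_nonneg A j _
      _ = _ := by
          refine Finset.sum_congr rfl fun a _ => Finset.sum_congr rfl fun b _ => ?_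
          congr 1
          rw [pow_succ (-1 : ℤ) (j + 1)]
          simp only [mul_neg, mul_one, neg_smul, smul_sub, smul_add]
          abel

lemma F_sum (A : Finset G) (j : ℕ) (S : Finset G) :
    ∑ u ∈ S, F A j u ≤ (A.card : ℝ) ^ (2 * (j + 1)) := by
  induction j generalizing S with
  | zero =>
    unfold F rep
    rw [Finset.sum_comm]
    calc ∑ z ∈ A, ∑ u ∈ S, ∑ w ∈ A, (if u = z + w then (1 : ℝ) else 0)
        = ∑ z ∈ A, ∑ w ∈ A, ∑ u ∈ S, (if u = z + w then (1 : ℝ) else 0) :=
          Finset.sum_congr rfl fun z _ => Finset.sum_comm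
      _ ≤ ∑ z ∈ A, ∑ w ∈ A, (1 : ℝ) := by
          refine Finset.sum_le_sum fun z _ => Finset.sum_le_sum fun w _ => ?_
          rw [Finset.sum_ite_eq']
          split_ifs <;> norm_num
      _ = _ := by simp; ring
  | succ j ih =>
    unfold F
    rw [Finset.sum_comm]
    calc ∑ a ∈ A, ∑ u ∈ S, ∑ b ∈ A, F A j (u - (-1 : ℤ) ^ (j + 1) • (a + b))
        = ∑ a ∈ A, ∑ b ∈ A, ∑ u ∈ S, F A j (u - (-1 : ℤ) ^ (j + 1) • (a + b)) :=
          Finset.sum_congr rfl fun z _ => Finset.sum_comm
      _ ≤ ∑ a ∈ A, ∑ b ∈ A, (A.card : ℝ) ^ (2 * (j + 1)) := by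
          refine Finset.sum_le_sum fun a _ => Finset.sum_le_sum fun b _ => ?_
          have h := ih (S.image (fun u => u - (-1 : ℤ) ^ (j + 1) • (a + b)))
          rwa [Finset.sum_image] at h
          intro u _ v _ huv
          simpa using huv
      _ = _ := by
          rw [Finset.sum_const, Finset.sum_const, nsmul_eq_mul, nsmul_eq_mul]
          ring

/-- Counting: many paths between all pairs force a small sumset. -/
lemma path_count (A : Finset G) (i : ℕ) (M : ℝ)
    (h : ∀ x ∈ A, ∀ y ∈ A, M ≤ ∑ z ∈ A, N A i x z * N A (i + 1) y z) :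
    ((A + A).card : ℝ) * M ≤ (A.card : ℝ) ^ (4 * i + 6) := by
  set U : Finset G := (A ×ˢ A).image (fun p => p.1 - (-1 : ℤ) ^ (i + 1) • p.2) with hU
  have key : ∀ s ∈ A + A, M ≤ ∑ u ∈ U, F A i u * F A (i + 1) (s - u) := by
    intro s hs
    obtain ⟨x, hx, y, hy, rfl⟩ := Finset.mem_add.1 hs
    refine (h x hx y hy).trans ?_
    calc ∑ z ∈ A, N A i x z * N A (i + 1) y z
        ≤ ∑ z ∈ A, F A i (x - (-1 : ℤ) ^ (i + 1) • z) *
            F A (i + 1) ((x + y) - (x - (-1 : ℤ) ^ (i + 1) • z)) := by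
          refine Finset.sum_le_sum fun z _ => ?_
          have h2 := N_le_F A (i + 1) y z
          have e : y - (-1 : ℤ) ^ (i + 1 + 1) • z = (x + y) - (x - (-1 : ℤ) ^ (i + 1) • z) := by
            rw [pow_succ (-1 : ℤ) (i + 1)]
            simp only [mul_neg, mul_one, neg_smul]
            abel
          rw [e] at h2
          exact mul_le_mul (N_le_F A i x z) h2 (N_nonneg A _ _ _) (F_nonneg A _ _)
      _ = ∑ u ∈ A.image (fun z => x - (-1 : ℤ) ^ (i + 1) • z),
            F A i u * F A (i + 1) ((x + y) - u) := by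
          rw [Finset.sum_image]
          intro a _ b _ hab
          have hab' : (-1 : ℤ) ^ (i + 1) • a = (-1 : ℤ) ^ (i + 1) • b := by simpa using hab
          rcases neg_one_pow_eq_or ℤ (i + 1) with h1 | h1
          · rw [h1] at hab'; simpa using hab'
          · rw [h1] at hab'; simpa using hab'
      _ ≤ _ := by
          refine Finset.sum_le_sum_of_subset_of_nonneg ?_ ?_
          · intro u hu
            obtain ⟨z, hz, rfl⟩ := Finset.mem_image.1 hu
            rw [hU]
            exact Finset.mem_image.2 ⟨(x, z), Finset.mem_product.2 ⟨hx, hz⟩, rfl⟩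
          · intro u _ _
            exact mul_nonneg (F_nonneg A _ _) (F_nonneg A _ _)
  calc ((A + A).card : ℝ) * M = ∑ s ∈ A + A, M := by rw [Finset.sum_const, nsmul_eq_mul]
    _ ≤ ∑ s ∈ A + A, ∑ u ∈ U, F A i u * F A (i + 1) (s - u) := Finset.sum_le_sum key
    _ = ∑ u ∈ U, F A i u * ∑ s ∈ A + A, F A (i + 1) (s - u) := by
        rw [Finset.sum_comm]
        simp only [Finset.mul_sum]
    _ ≤ ∑ u ∈ U, F A i u * (A.card : ℝ) ^ (2 * (i + 1 + 1)) := by
        refine Finset.sum_le_sum fun u _ => mul_le_mul_of_nonneg_left ?_ (F_nonneg A _ _)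
        have h := F_sum A (i + 1) ((A + A).image (fun s => s - u))
        rwa [Finset.sum_image] at h
        intro a _ b _ hab
        simpa using hab
    _ = (∑ u ∈ U, F A i u) * (A.card : ℝ) ^ (2 * (i + 1 + 1)) := by rw [Finset.sum_mul]
    _ ≤ (A.card : ℝ) ^ (2 * (i + 1)) * (A.card : ℝ) ^ (2 * (i + 1 + 1)) :=
        mul_le_mul_of_nonneg_right (F_sum A i U) (by positivity)
    _ = _ := by rw [← pow_add]; congr 1; ring

/-- The first neighbourhood is not too small. -/
lemma X_zero_card {A : Finset G} (hA : Ext A) {x : G} (hx : x ∈ A) :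
    14651 / 20000 * (T A A A A / (A.card : ℝ) ^ 3) ≤ ((X A x 0).card : ℝ) / A.card := by
  classical
  have hn := hA.card_pos
  have he := T_pos hA.1
  have hd := hA.deg_le hx
  set n : ℝ := (A.card : ℝ) with hnd
  set e : ℝ := T A A A A with hed
  have h1 : deg A x ≤ (X A x 0).card * n + 299 / 20000 * e / n := by
    unfold deg
    rw [← Finset.sum_filter_add_sum_filter_not A
      (fun y => 299 / 20000 * e / n ^ 2 ≤ rep A (x + y))]
    refine add_le_add ?_ ?_
    · calc ∑ y ∈ A.filter (fun y => 299 / 20000 * e / n ^ 2 ≤ rep A (x + y)), rep A (x + y)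
          ≤ ∑ y ∈ A.filter (fun y => 299 / 20000 * e / n ^ 2 ≤ rep A (x + y)), n :=
            Finset.sum_le_sum fun y _ => rep_le A _
        _ = (X A x 0).card * n := by
            rw [Finset.sum_const, nsmul_eq_mul]
            unfold X
            congr
    · calc ∑ y ∈ A.filter (fun y => ¬ 299 / 20000 * e / n ^ 2 ≤ rep A (x + y)), rep A (x + y)
          ≤ ∑ y ∈ A.filter (fun y => ¬ 299 / 20000 * e / n ^ 2 ≤ rep A (x + y)),
              299 / 20000 * e / n ^ 2 :=
            Finset.sum_le_sum fun y hy => by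
              rw [Finset.mem_filter] at hy
              linarith [hy.2]
        _ ≤ ∑ y ∈ A, 299 / 20000 * e / n ^ 2 :=
            Finset.sum_le_sum_of_subset_of_nonneg (Finset.filter_subset _ _)
              fun _ _ _ => by positivity
        _ = 299 / 20000 * e / n := by
            rw [Finset.sum_const, nsmul_eq_mul, ← hnd]
            field_simp
  rw [le_div_iff₀ hn]
  have h2 : 14651 / 20000 * (e / n) ≤ (X A x 0).card * n := by
    have : 299 / 20000 * e / n = 299 / 20000 * (e / n) := by ring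
    rw [this] at h1
    linarith
  have h3 : 14651 / 20000 * (e / n ^ 3) * n * n = 14651 / 20000 * (e / n) := by
    field_simp
  have h4 : 14651 / 20000 * (e / n ^ 3) * n * n ≤ (X A x 0).card * n := by rw [h3]; exact h2
  exact le_of_mul_le_mul_right h4 hn

/-- Growth of the neighbourhoods. -/
lemma X_succ_card {A : Finset G} (hA : Ext A) (x : G) (j : ℕ) :
    (14651 / 20000 * (((X A x j).card : ℝ) / A.card)) ^ 4 ≤
      (((X A x j).card : ℝ) / A.card * (((X A x (j + 1)).card : ℝ) / A.card)) ^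
        (299 / 100 : ℝ) := by
  classical
  have hn := hA.card_pos
  have he := T_pos hA.1
  refine le_trans ?_ (hA.mixed (X_sub A x j) (X_sub A x (j + 1)))
  refine pow_le_pow_left₀ (by positivity) ?_ 4
  set n : ℝ := (A.card : ℝ) with hnd
  set e : ℝ := T A A A A with hed
  set c : ℝ := ((X A x j).card : ℝ) with hc
  rw [le_div_iff₀ he]
  have h1 : c * (299 / 400 * (e / n)) ≤ ∑ z ∈ X A x j, deg A z := by
    calc c * (299 / 400 * (e / n)) = ∑ z ∈ X A x j, 299 / 400 * (e / n) := by
          rw [Finset.sum_const, nsmul_eq_mul]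
      _ ≤ _ := Finset.sum_le_sum fun z hz => hA.deg_le (X_sub A x j hz)
  have h2 : ∑ z ∈ X A x j, deg A z = ∑ y ∈ A, ∑ z ∈ X A x j, rep A (z + y) := by
    unfold deg
    rw [Finset.sum_comm]
  have h3 : ∑ y ∈ A, ∑ z ∈ X A x j, rep A (z + y) ≤
      T (X A x j) (X A x (j + 1)) A A + 299 / 20000 * e * c / n := by
    rw [← Finset.sum_filter_add_sum_filter_not A
      (fun y => 299 / 20000 * e * c / n ^ 2 ≤ ∑ z ∈ X A x j, rep A (z + y))]
    refine add_le_add ?_ ?_
    · rw [T_eq_rep, Finset.sum_comm]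
      refine le_of_eq ?_
      congr 1
    · calc ∑ y ∈ A.filter (fun y => ¬ 299 / 20000 * e * c / n ^ 2 ≤
              ∑ z ∈ X A x j, rep A (z + y)), ∑ z ∈ X A x j, rep A (z + y)
          ≤ ∑ y ∈ A.filter (fun y => ¬ 299 / 20000 * e * c / n ^ 2 ≤
              ∑ z ∈ X A x j, rep A (z + y)), 299 / 20000 * e * c / n ^ 2 :=
            Finset.sum_le_sum fun y hy => by
              rw [Finset.mem_filter] at hy
              linarith [hy.2]
        _ ≤ ∑ y ∈ A, 299 / 20000 * e * c / n ^ 2 :=
            Finset.sum_le_sum_of_subset_of_nonneg (Finset.filter_subset _ _)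
              fun _ _ _ => by positivity
        _ = 299 / 20000 * e * c / n := by
            rw [Finset.sum_const, nsmul_eq_mul, ← hnd]
            field_simp
  have h4 : c * (299 / 400 * (e / n)) ≤
      T (X A x j) (X A x (j + 1)) A A + 299 / 20000 * e * c / n := by
    rw [h2] at h1
    exact h1.trans h3
  have h5 : 14651 / 20000 * (c / n) * e =
      c * (299 / 400 * (e / n)) - 299 / 20000 * e * c / n := by
    field_simp
    ring
  rw [h5]
  linarith

/-- The exponents controlling the sizes of the neighbourhoods. -/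
noncomputable def u (L : ℝ) (j : ℕ) : ℝ := 63 / 100 + (101 / 299) ^ j * (L - 318 / 1000)

lemma exp_aux1 : Real.exp (-(3118 / 10000)) ≤ 14651 / 20000 := by
  have h := Real.sum_le_exp_of_nonneg (x := 3118 / 10000) (by norm_num) 5
  simp only [Finset.sum_range_succ, Finset.sum_range_zero, Nat.factorial] at h
  norm_num at h
  rw [Real.exp_neg, inv_le_comm₀ (Real.exp_pos _) (by norm_num)]
  have e0 : (3118 / 10000 : ℝ) = 1559 / 5000 := by norm_num
  rw [e0]
  refine le_trans ?_ h
  norm_num

lemma X_card_lower {A : Finset G} (hA : Ext A) {L : ℝ}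
    (he : T A A A A = (A.card : ℝ) ^ 3 * Real.exp (-L)) {x : G} (hx : x ∈ A) (j : ℕ) :
    Real.exp (-u L j) ≤ ((X A x j).card : ℝ) / A.card := by
  have hn := hA.card_pos
  induction j with
  | zero =>
    refine le_trans ?_ (X_zero_card hA hx)
    have e1 : T A A A A / (A.card : ℝ) ^ 3 = Real.exp (-L) := by
      rw [he]; field_simp
    rw [e1]
    have e2 : -u L 0 = -L + -(312 / 1000) := by unfold u; ring
    rw [e2, Real.exp_add, mul_comm]
    refine mul_le_mul_of_nonneg_right ?_ (Real.exp_pos _).le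
    refine le_trans ?_ exp_aux1
    exact Real.exp_le_exp.2 (by norm_num)
  | succ j ih =>
    have h := X_succ_card hA x j
    set p : ℝ := ((X A x j).card : ℝ) / A.card with hpd
    set q : ℝ := ((X A x (j + 1)).card : ℝ) / A.card with hqd
    have hp : 0 < p := lt_of_lt_of_le (Real.exp_pos _) ih
    have hq0 : 0 ≤ q := by rw [hqd]; positivity
    have hq : 0 < q := by
      rcases eq_or_lt_of_le hq0 with h0 | h0
      · rw [← h0, mul_zero, Real.zero_rpow (by norm_num)] at h
        have : 0 < (14651 / 20000 * p) ^ 4 := by positivity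
        linarith
      · exact h0
    have hlog := Real.log_le_log (by positivity) h
    rw [Real.log_pow, Real.log_mul (by norm_num) hp.ne', Real.log_rpow (by positivity),
      Real.log_mul hp.ne' hq.ne'] at hlog
    have hc : -(3118 / 10000) ≤ Real.log (14651 / 20000) := by
      rw [Real.le_log_iff_exp_le (by norm_num)]
      exact exp_aux1
    have hlp : -u L j ≤ Real.log p := by
      rw [Real.le_log_iff_exp_le hp]; exact ih
    rw [← Real.le_log_iff_exp_le hq]
    unfold u at hlp ⊢
    rw [pow_succ]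
    set w : ℝ := (101 / 299) ^ j * (L - 318 / 1000) with hw
    have e3 : (101 / 299 : ℝ) ^ j * (101 / 299) * (L - 318 / 1000) = 101 / 299 * w := by
      rw [hw]; ring
    rw [e3]
    push_cast at hlog
    linarith

lemma exp_aux2 : Real.exp (-(421 / 100)) ≤ 299 / 20000 := by
  have h1 : (2.7182818283 : ℝ) < Real.exp 1 := Real.exp_one_gt_d9
  have h := Real.sum_le_exp_of_nonneg (x := 21 / 100) (by norm_num) 5
  simp only [Finset.sum_range_succ, Finset.sum_range_zero, Nat.factorial] at h
  norm_num at h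
  have h4 : (54.598 : ℝ) ≤ Real.exp 4 := by
    have : Real.exp 4 = Real.exp 1 ^ 4 := by
      rw [← Real.exp_nat_mul]; norm_num
    rw [this]
    refine le_trans ?_ (pow_le_pow_left₀ (by norm_num) h1.le 4)
    norm_num
  have e : Real.exp (421 / 100) = Real.exp 4 * Real.exp (21 / 100) := by
    rw [← Real.exp_add]; norm_num
  rw [Real.exp_neg, inv_le_comm₀ (Real.exp_pos _) (by norm_num), e]
  refine le_trans ?_ (mul_le_mul h4 h (by norm_num) (Real.exp_pos _).le)
  norm_num

lemma exp_aux3 : Real.exp (-(435 / 100)) ≤ 13 / 1000 := by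
  have h1 : (2.7182818283 : ℝ) < Real.exp 1 := Real.exp_one_gt_d9
  have h := Real.sum_le_exp_of_nonneg (x := 35 / 100) (by norm_num) 6
  simp only [Finset.sum_range_succ, Finset.sum_range_zero, Nat.factorial] at h
  norm_num at h
  have h4 : (54.598 : ℝ) ≤ Real.exp 4 := by
    have : Real.exp 4 = Real.exp 1 ^ 4 := by
      rw [← Real.exp_nat_mul]; norm_num
    rw [this]
    refine le_trans ?_ (pow_le_pow_left₀ (by norm_num) h1.le 4)
    norm_num
  have e : Real.exp (435 / 100) = Real.exp 4 * Real.exp (35 / 100) := by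
    rw [← Real.exp_add]; norm_num
  rw [Real.exp_neg, inv_le_comm₀ (Real.exp_pos _) (by norm_num)]
  norm_num at e
  norm_num
  rw [e]
  norm_num at h4
  refine le_trans ?_ (mul_le_mul h4 h (by norm_num) (Real.exp_pos _).le)
  norm_num

/-- `2 exp(-0.68) - 1 ≥ 0.013`. -/
lemma exp_aux4 : (1013 / 2000 : ℝ) ≤ Real.exp (-(68 / 100)) := by
  have h1 : Real.exp 1 < 2.7182818286 := Real.exp_one_lt_d9
  have h := Real.sum_le_exp_of_nonneg (x := 32 / 100) (by norm_num) 6
  simp only [Finset.sum_range_succ, Finset.sum_range_zero, Nat.factorial] at h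
  norm_num at h
  have e : Real.exp (-(68 / 100)) * Real.exp 1 = Real.exp (32 / 100) := by
    rw [← Real.exp_add]; norm_num
  norm_num at e
  have h0 : 0 < Real.exp (-(68 / 100)) := Real.exp_pos _
  norm_num at h0 ⊢
  by_contra hcon
  push Not at hcon
  have h3 : Real.exp (-(17 / 25)) * Real.exp 1 ≤ 1013 / 2000 * 2.7182818286 :=
    mul_le_mul hcon.le h1.le (Real.exp_pos _).le (by norm_num)
  rw [e] at h3
  norm_num at h3
  linarith

/-- Lower bound for the number of popular paths. -/
noncomputable def Tl (n L : ℝ) (j : ℕ) : ℝ :=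
  n ^ (2 * j + 1) *
    Real.exp (-(((j : ℝ) + 1) * (L + 421 / 100) + ∑ k ∈ Finset.range j, u L k))

lemma Tl_pos {n : ℝ} (hn : 0 < n) (L : ℝ) (j : ℕ) : 0 < Tl n L j := by
  unfold Tl; positivity

lemma N_lower {A : Finset G} (hA : Ext A) {L : ℝ}
    (he : T A A A A = (A.card : ℝ) ^ 3 * Real.exp (-L)) {x : G} (hx : x ∈ A) (j : ℕ)
    {y : G} (hy : y ∈ X A x j) :
    Tl A.card L j ≤ N A j x y := by
  classical
  have hn := hA.card_pos
  induction j generalizing y with
  | zero =>
    unfold X at hy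
    rw [Finset.mem_filter] at hy
    unfold N
    refine le_trans ?_ hy.2
    unfold Tl
    rw [he]
    set n : ℝ := (A.card : ℝ) with hnd
    have e1 : 299 / 20000 * (n ^ 3 * Real.exp (-L)) / n ^ 2 = n * (Real.exp (-L) * (299 / 20000)) := by
      field_simp
    rw [e1]
    have e2 : -((((0 : ℕ) : ℝ) + 1) * (L + 421 / 100) + ∑ k ∈ Finset.range 0, u L k) =
        -L + -(421 / 100) := by
      simp only [Finset.range_zero, Finset.sum_empty]
      push_cast
      ring
    rw [e2, Real.exp_add]
    simp only [mul_zero, zero_add, pow_one]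
    refine mul_le_mul_of_nonneg_left ?_ hn.le
    exact mul_le_mul_of_nonneg_left exp_aux2 (Real.exp_pos _).le
  | succ j ih =>
    unfold X at hy
    rw [Finset.mem_filter] at hy
    have hyr := hy.2
    have hXl := X_card_lower hA he hx j
    unfold N
    have hT0 := Tl_pos hn L j
    calc Tl (A.card : ℝ) L (j + 1)
        ≤ Tl (A.card : ℝ) L j * (299 / 20000 * T A A A A * ((X A x j).card : ℝ) / (A.card : ℝ) ^ 2) := by
          rw [he]
          set n : ℝ := (A.card : ℝ) with hnd
          set c : ℝ := ((X A x j).card : ℝ) with hcd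
          have e1 : 299 / 20000 * (n ^ 3 * Real.exp (-L)) * c / n ^ 2 =
              n ^ 2 * (Real.exp (-L) * (299 / 20000) * (c / n)) := by
            field_simp
          rw [e1]
          have h2 : Real.exp (-L) * Real.exp (-(421 / 100)) * Real.exp (-u L j) ≤
              Real.exp (-L) * (299 / 20000) * (c / n) := by
            refine mul_le_mul ?_ hXl (Real.exp_pos _).le (by positivity)
            exact mul_le_mul_of_nonneg_left exp_aux2 (Real.exp_pos _).le
          have e3 : Tl n L (j + 1) =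
              Tl n L j * (n ^ 2 * (Real.exp (-L) * Real.exp (-(421 / 100)) * Real.exp (-u L j))) := by
            unfold Tl
            rw [Finset.sum_range_succ, ← Real.exp_add, ← Real.exp_add]
            have : n ^ (2 * (j + 1) + 1) = n ^ (2 * j + 1) * n ^ 2 := by
              rw [← pow_add]
              congr 1
            rw [this]
            have e4 : -((((j + 1 : ℕ) : ℝ) + 1) * (L + 421 / 100) +
                (∑ k ∈ Finset.range j, u L k + u L j)) =
                -(((j : ℝ) + 1) * (L + 421 / 100) + ∑ k ∈ Finset.range j, u L k) +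
                (-L + -(421 / 100) + -u L j) := by
              push_cast
              ring
            rw [e4, Real.exp_add]
            ring
          rw [e3]
          refine mul_le_mul_of_nonneg_left ?_ hT0.le
          exact mul_le_mul_of_nonneg_left h2 (by positivity)
      _ ≤ Tl (A.card : ℝ) L j * ∑ z ∈ X A x j, rep A (z + y) :=
          mul_le_mul_of_nonneg_left hyr hT0.le
      _ = ∑ z ∈ X A x j, Tl (A.card : ℝ) L j * rep A (z + y) := by rw [Finset.mul_sum]
      _ ≤ ∑ z ∈ X A x j, N A j x z * rep A (z + y) :=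
          Finset.sum_le_sum fun z hz => mul_le_mul_of_nonneg_right (ih hz) (rep_nonneg A _)
      _ ≤ ∑ z ∈ A, N A j x z * rep A (z + y) :=
          Finset.sum_le_sum_of_subset_of_nonneg (X_sub A x j)
            fun z _ _ => mul_nonneg (N_nonneg A j x z) (rep_nonneg A _)

lemma sum_u_le {L : ℝ} (hL : 318 / 1000 ≤ L) (j : ℕ) :
    ∑ k ∈ Finset.range j, u L k ≤ 63 / 100 * j + 299 / 198 * (L - 318 / 1000) := by
  have h : ∑ k ∈ Finset.range j, u L k =
      63 / 100 * j + 299 / 198 * (L - 318 / 1000) * (1 - (101 / 299) ^ j) := by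
    induction j with
    | zero => simp
    | succ j ih =>
      rw [Finset.sum_range_succ, ih, pow_succ]
      unfold u
      push_cast
      ring
  rw [h]
  have h2 : (0 : ℝ) ≤ (101 / 299) ^ j := by positivity
  have h3 : 0 ≤ L - 318 / 1000 := by linarith
  nlinarith [mul_nonneg h3 h2]

/-- The sumset bound after `i` growth steps. -/
lemma step_bound {A : Finset G} (hA : Ext A) {L : ℝ} (hL : 318 / 1000 ≤ L)
    (he : T A A A A = (A.card : ℝ) ^ 3 * Real.exp (-L)) (i : ℕ)
    (hi : (101 / 299 : ℝ) ^ i * (L - 318 / 1000) ≤ 5 / 100) :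
    ((A + A).card : ℝ) ≤
      Real.exp ((2 * i + 603 / 100) * L + 968 / 100 * i + 1668 / 100) * A.card := by
  classical
  have hn := hA.card_pos
  have hui : u L i ≤ 68 / 100 := by unfold u; linarith
  have hui1 : u L (i + 1) ≤ 68 / 100 := by
    unfold u
    have h3 : 0 ≤ (101 / 299 : ℝ) ^ i * (L - 318 / 1000) :=
      mul_nonneg (by positivity) (by linarith)
    rw [pow_succ]
    linarith
  have hX1 : ∀ x ∈ A, 1013 / 2000 * (A.card : ℝ) ≤ (X A x i).card := by
    intro x hx
    rw [← le_div_iff₀ hn]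
    refine le_trans exp_aux4 (le_trans ?_ (X_card_lower hA he hx i))
    exact Real.exp_le_exp.2 (by linarith)
  have hX2 : ∀ x ∈ A, 1013 / 2000 * (A.card : ℝ) ≤ (X A x (i + 1)).card := by
    intro x hx
    rw [← le_div_iff₀ hn]
    refine le_trans exp_aux4 (le_trans ?_ (X_card_lower hA he hx (i + 1)))
    exact Real.exp_le_exp.2 (by linarith)
  have hM : ∀ x ∈ A, ∀ y ∈ A,
      13 / 1000 * (A.card : ℝ) * (Tl A.card L i * Tl A.card L (i + 1)) ≤
        ∑ z ∈ A, N A i x z * N A (i + 1) y z := by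
    intro x hx y hy
    set V := X A x i ∩ X A y (i + 1) with hV
    have hc : 13 / 1000 * (A.card : ℝ) ≤ V.card := by
      have h1 : (X A x i).card + (X A y (i + 1)).card ≤ A.card + V.card := by
        rw [hV, ← Finset.card_union_add_card_inter]
        exact Nat.add_le_add_right (Finset.card_le_card
          (Finset.union_subset (X_sub A x i) (X_sub A y (i + 1)))) _
      have h2 : ((X A x i).card : ℝ) + (X A y (i + 1)).card ≤ A.card + V.card := by
        exact_mod_cast h1
      have h3 := hX1 x hx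
      have h4 := hX2 y hy
      linarith
    calc 13 / 1000 * (A.card : ℝ) * (Tl A.card L i * Tl A.card L (i + 1))
        ≤ V.card * (Tl A.card L i * Tl A.card L (i + 1)) :=
          mul_le_mul_of_nonneg_right hc
            (mul_nonneg (Tl_pos hn L i).le (Tl_pos hn L (i + 1)).le)
      _ = ∑ z ∈ V, Tl A.card L i * Tl A.card L (i + 1) := by
          rw [Finset.sum_const, nsmul_eq_mul]
      _ ≤ ∑ z ∈ V, N A i x z * N A (i + 1) y z := by
          refine Finset.sum_le_sum fun z hz => ?_
          rw [hV, Finset.mem_inter] at hz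
          exact mul_le_mul (N_lower hA he hx i hz.1) (N_lower hA he hy (i + 1) hz.2)
            (Tl_pos hn L (i + 1)).le (N_nonneg A i x z)
      _ ≤ _ := by
          refine Finset.sum_le_sum_of_subset_of_nonneg ?_ ?_
          · exact Finset.inter_subset_left.trans (X_sub A x i)
          · intro z _ _
            exact mul_nonneg (N_nonneg A i x z) (N_nonneg A (i + 1) y z)
  have hp := path_count A i _ hM
  have s1 := sum_u_le hL i
  have s2 := sum_u_le hL (i + 1)
  set n : ℝ := (A.card : ℝ) with hnd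
  set m : ℝ := ((A + A).card : ℝ) with hmd
  have hm0 : 0 ≤ m := by positivity
  set P : ℝ := (2 * (i : ℝ) + 3) * (L + 421 / 100) + 435 / 100 +
    (∑ k ∈ Finset.range i, u L k + ∑ k ∈ Finset.range (i + 1), u L k) with hP
  have hlow : n ^ (4 * i + 5) * Real.exp (-P) ≤ 13 / 1000 * n * (Tl n L i * Tl n L (i + 1)) := by
    have e1 : Tl n L i * Tl n L (i + 1) = n ^ (4 * i + 4) * Real.exp (-(P - 435 / 100)) := by
      unfold Tl
      have e2 : n ^ (4 * i + 4) = n ^ (2 * i + 1) * n ^ (2 * (i + 1) + 1) := by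
        rw [← pow_add]
        congr 1
        ring
      rw [e2]
      have e3 : -(P - 435 / 100) =
          -(((i : ℝ) + 1) * (L + 421 / 100) + ∑ k ∈ Finset.range i, u L k) +
          -((((i + 1 : ℕ) : ℝ) + 1) * (L + 421 / 100) + ∑ k ∈ Finset.range (i + 1), u L k) := by
        rw [hP]
        push_cast
        ring
      rw [e3, Real.exp_add]
      ring
    rw [e1]
    have e4 : -P = -(435 / 100) + -(P - 435 / 100) := by ring
    rw [e4, Real.exp_add]
    have e5 : 13 / 1000 * n * (n ^ (4 * i + 4) * Real.exp (-(P - 435 / 100))) =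
        n ^ (4 * i + 5) * (13 / 1000 * Real.exp (-(P - 435 / 100))) := by
      rw [show 4 * i + 5 = (4 * i + 4) + 1 from rfl, pow_succ]
      ring
    rw [e5]
    refine mul_le_mul_of_nonneg_left ?_ (by positivity)
    exact mul_le_mul_of_nonneg_right exp_aux3 (Real.exp_pos _).le
  have h5 : m * (n ^ (4 * i + 5) * Real.exp (-P)) ≤ n ^ (4 * i + 6) :=
    (mul_le_mul_of_nonneg_left hlow hm0).trans hp
  have h6 : m ≤ Real.exp P * n := by
    have hpow : 0 < n ^ (4 * i + 5) := by positivity
    have e6 : n ^ (4 * i + 6) = n ^ (4 * i + 5) * n := by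
      rw [show 4 * i + 6 = (4 * i + 5) + 1 from rfl, pow_succ]
    rw [e6] at h5
    have h7 : n ^ (4 * i + 5) * (m * Real.exp (-P)) ≤ n ^ (4 * i + 5) * n := by
      calc n ^ (4 * i + 5) * (m * Real.exp (-P)) = m * (n ^ (4 * i + 5) * Real.exp (-P)) := by ring
        _ ≤ _ := h5
    have h8 : m * Real.exp (-P) ≤ n := le_of_mul_le_mul_left h7 hpow
    calc m = (m * Real.exp (-P)) * Real.exp P := by
          rw [mul_assoc, ← Real.exp_add]; simp
      _ ≤ n * Real.exp P := mul_le_mul_of_nonneg_right h8 (Real.exp_pos _).le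
      _ = _ := by ring
  refine h6.trans ?_
  refine mul_le_mul_of_nonneg_right ?_ hn.le
  refine Real.exp_le_exp.2 ?_
  rw [hP]
  push_cast at s2
  nlinarith

/-- The number of growth steps needed. -/
lemma exists_step {L : ℝ} :
    ∃ m : ℕ, (101 / 299 : ℝ) ^ (m + 1) * (L - 318 / 1000) ≤ 5 / 100 ∧
      (m = 0 ∨ 5 / 100 * (299 / 101 : ℝ) ^ m < L - 318 / 1000) := by
  classical
  have hex : ∃ m : ℕ, (101 / 299 : ℝ) ^ (m + 1) * (L - 318 / 1000) ≤ 5 / 100 := by
    rcases le_or_gt (L - 318 / 1000) 0 with h | h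
    · refine ⟨0, ?_⟩
      have : (101 / 299 : ℝ) ^ (0 + 1) * (L - 318 / 1000) ≤ 0 :=
        mul_nonpos_of_nonneg_of_nonpos (by positivity) h
      linarith
    · obtain ⟨m, hm⟩ := exists_pow_lt_of_lt_one (x := (5 / 100) / (L - 318 / 1000))
        (y := (101 / 299 : ℝ)) (by positivity) (by norm_num)
      refine ⟨m, ?_⟩
      have h1 : (101 / 299 : ℝ) ^ (m + 1) ≤ (101 / 299 : ℝ) ^ m :=
        pow_le_pow_of_le_one (by norm_num) (by norm_num) (Nat.le_succ m)
      have h2 : (101 / 299 : ℝ) ^ (m + 1) * (L - 318 / 1000) ≤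
          (5 / 100) / (L - 318 / 1000) * (L - 318 / 1000) :=
        mul_le_mul_of_nonneg_right (h1.trans hm.le) h.le
      rwa [div_mul_cancel₀ _ h.ne'] at h2
  refine ⟨Nat.find hex, Nat.find_spec hex, ?_⟩
  rcases Nat.eq_zero_or_pos (Nat.find hex) with h0 | hpos
  · exact Or.inl h0
  · right
    have hlt : Nat.find hex - 1 < Nat.find hex := by omega
    have hmin := Nat.find_min hex hlt
    push Not at hmin
    have e1 : Nat.find hex - 1 + 1 = Nat.find hex := by omega
    rw [e1] at hmin
    set m := Nat.find hex with hm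
    have e2 : (299 / 101 : ℝ) ^ m * (101 / 299 : ℝ) ^ m = 1 := by
      rw [← mul_pow]; norm_num
    have hp : (0 : ℝ) < (299 / 101 : ℝ) ^ m := by positivity
    calc 5 / 100 * (299 / 101 : ℝ) ^ m = (299 / 101 : ℝ) ^ m * (5 / 100) := by ring
      _ < (299 / 101 : ℝ) ^ m * ((101 / 299 : ℝ) ^ m * (L - 318 / 1000)) :=
          mul_lt_mul_of_pos_left hmin hp
      _ = ((299 / 101 : ℝ) ^ m * (101 / 299 : ℝ) ^ m) * (L - 318 / 1000) := by ring
      _ = L - 318 / 1000 := by rw [e2, one_mul]

lemma growth1 (m : ℕ) (hm : 7 ≤ m) :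
    968 / 100 * (m : ℝ) + 2636 / 100 ≤ 5 / 100 * (299 / 101 : ℝ) ^ m := by
  induction m, hm using Nat.le_induction with
  | base => norm_num
  | succ m hm ih =>
    have hm' : (7 : ℝ) ≤ m := by exact_mod_cast hm
    rw [pow_succ]
    push_cast
    nlinarith

lemma growth2 (m : ℕ) (hm : 46 ≤ m) :
    968 * (m : ℝ) + 2636 ≤ 5 / 100 * (299 / 101 : ℝ) ^ m := by
  induction m, hm using Nat.le_induction with
  | base => norm_num
  | succ m hm ih =>
    have hm' : (46 : ℝ) ≤ m := by exact_mod_cast hm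
    rw [pow_succ]
    push_cast
    nlinarith

lemma exp_aux5 : Real.exp (52 / 100) ≤ 169 / 100 := by
  have h1 : Real.exp 1 < 2.7182818286 := Real.exp_one_lt_d9
  have h := Real.sum_le_exp_of_nonneg (x := 48 / 100) (by norm_num) 5
  simp only [Finset.sum_range_succ, Finset.sum_range_zero, Nat.factorial] at h
  norm_num at h
  have e : Real.exp (52 / 100) * Real.exp (12 / 25) = Real.exp 1 := by
    rw [← Real.exp_add]; norm_num
  have h0 : 0 < Real.exp (52 / 100) := Real.exp_pos _
  by_contra hcon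
  push Not at hcon
  have h3 := mul_le_mul hcon.le h (by norm_num) h0.le
  rw [e] at h3
  norm_num at h3 h1
  linarith

lemma growth3 (m : ℕ) (hm : 46 ≤ m) :
    Real.exp ((m : ℝ) + 52 / 100) ≤ 5 / 100 * (299 / 101 : ℝ) ^ m := by
  have h1 : Real.exp 1 < 2.7182818286 := Real.exp_one_lt_d9
  rw [Real.exp_add]
  have e1 : Real.exp (m : ℝ) = Real.exp 1 ^ m := by
    rw [← Real.exp_nat_mul]; simp
  rw [e1]
  have h2 : Real.exp 1 ^ m ≤ (2.7182818286 : ℝ) ^ m :=
    pow_le_pow_left₀ (Real.exp_pos _).le h1.le m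
  have h3 : ((2.7182818286 : ℝ) * (1089 / 1000)) ^ m ≤ (299 / 101 : ℝ) ^ m :=
    pow_le_pow_left₀ (by norm_num) (by norm_num) m
  rw [mul_pow] at h3
  have h4 : (338 / 10 : ℝ) ≤ (1089 / 1000 : ℝ) ^ m := by
    calc (338 / 10 : ℝ) ≤ (1089 / 1000 : ℝ) ^ 46 := by norm_num
      _ ≤ (1089 / 1000 : ℝ) ^ m := pow_le_pow_right₀ (by norm_num) hm
  have h5 : (0 : ℝ) < (2.7182818286 : ℝ) ^ m := by positivity
  calc Real.exp 1 ^ m * Real.exp (52 / 100)
      ≤ (2.7182818286 : ℝ) ^ m * (169 / 100) :=
        mul_le_mul h2 exp_aux5 (Real.exp_pos _).le h5.le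
    _ = 5 / 100 * ((2.7182818286 : ℝ) ^ m * (338 / 10)) := by ring
    _ ≤ 5 / 100 * ((2.7182818286 : ℝ) ^ m * (1089 / 1000 : ℝ) ^ m) := by
        refine mul_le_mul_of_nonneg_left ?_ (by norm_num)
        exact mul_le_mul_of_nonneg_left h4 h5.le
    _ ≤ _ := mul_le_mul_of_nonneg_left h3 (by norm_num)

/-- The exponent is under control. -/
lemma exponent_bound {L : ℝ} (hL : 33 / 100 ≤ L) {m : ℕ}
    (hm : m = 0 ∨ 5 / 100 * (299 / 101 : ℝ) ^ m < L - 318 / 1000) :
    (2 * ((m + 1 : ℕ) : ℝ) + 603 / 100) * L + 968 / 100 * ((m + 1 : ℕ) : ℝ) + 1668 / 100 ≤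
      max 100 (2 * Real.log L + 7) * L := by
  have hLpos : 0 < L := by linarith
  have key1 : (100 : ℝ) * L ≤ max 100 (2 * Real.log L + 7) * L :=
    mul_le_mul_of_nonneg_right (le_max_left _ _) hLpos.le
  have key2 : (2 * Real.log L + 7) * L ≤ max 100 (2 * Real.log L + 7) * L :=
    mul_le_mul_of_nonneg_right (le_max_right _ _) hLpos.le
  push_cast
  rcases lt_or_ge m 7 with h7 | h7
  · refine le_trans ?_ key1
    interval_cases m
    · norm_num
      linarith
    · have h := hm.resolve_left (by norm_num)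
      norm_num at h ⊢
      linarith
    · have h := hm.resolve_left (by norm_num)
      norm_num at h ⊢
      linarith
    · have h := hm.resolve_left (by norm_num)
      norm_num at h ⊢
      linarith
    · have h := hm.resolve_left (by norm_num)
      norm_num at h ⊢
      linarith
    · have h := hm.resolve_left (by norm_num)
      norm_num at h ⊢
      linarith
    · have h := hm.resolve_left (by norm_num)
      norm_num at h ⊢
      linarith
  · have h := hm.resolve_left (by omega)
    have hm7 : (7 : ℝ) ≤ m := by exact_mod_cast h7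
    rcases lt_or_ge m 46 with h46 | h46
    · refine le_trans ?_ key1
      have g := growth1 m h7
      have hm45 : (m : ℝ) ≤ 45 := by exact_mod_cast (by omega : m ≤ 45)
      have h8 : (m : ℝ) * L ≤ 45 * L := mul_le_mul_of_nonneg_right hm45 hLpos.le
      linarith
    · refine le_trans ?_ key2
      have g := growth2 m h46
      have g3 := growth3 m h46
      have hlog : (m : ℝ) + 52 / 100 ≤ Real.log L := by
        rw [Real.le_log_iff_exp_le hLpos]
        linarith
      have h9 : ((m : ℝ) + 52 / 100) * L ≤ Real.log L * L :=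
        mul_le_mul_of_nonneg_right hlog hLpos.le
      linarith

/-- The case of not too large energy. -/
lemma large_case {A : Finset G} (hA : Ext A) {L : ℝ} (hL : 33 / 100 ≤ L)
    (he : T A A A A = (A.card : ℝ) ^ 3 * Real.exp (-L)) :
    ((A + A).card : ℝ) ≤ Real.exp (max 100 (2 * Real.log L + 7) * L) * A.card := by
  obtain ⟨m, h1, h2⟩ := exists_step (L := L)
  refine (step_bound hA (by linarith) he (m + 1) h1).trans ?_
  refine mul_le_mul_of_nonneg_right ?_ hA.card_pos.le
  exact Real.exp_le_exp.2 (exponent_bound hL h2)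

lemma exp_aux6 : Real.exp (33 / 100) ≤ 7 / 5 := by
  have h1 : Real.exp 1 < 2.7182818286 := Real.exp_one_lt_d9
  have h := Real.sum_le_exp_of_nonneg (x := 67 / 100) (by norm_num) 6
  simp only [Finset.sum_range_succ, Finset.sum_range_zero, Nat.factorial] at h
  norm_num at h
  have e : Real.exp (33 / 100) * Real.exp (67 / 100) = Real.exp 1 := by
    rw [← Real.exp_add]; norm_num
  have h0 : 0 < Real.exp (33 / 100) := Real.exp_pos _
  by_contra hcon
  push Not at hcon
  have h3 := mul_le_mul hcon.le h (by norm_num) h0.le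
  rw [e] at h3
  norm_num at h3 h1
  linarith

/-- Doubling of an extremal set. -/
lemma Ext.doubling {A : Finset G} (hA : Ext A) {K : ℝ} (hK : 1 ≤ K)
    (h : (A.card : ℝ) ^ 3 ≤ K * T A A A A) :
    ((A + A).card : ℝ) ≤ K ^ (max 100 (2 * Real.log (Real.log K) + 7) : ℝ) * A.card := by
  have hn := hA.card_pos
  have he := T_pos hA.1
  have hcube := T_cube A
  set n : ℝ := (A.card : ℝ) with hnd
  set e : ℝ := T A A A A with hed
  set k : ℝ := n ^ 3 / e with hk
  have hk1 : 1 ≤ k := by rw [hk, one_le_div he]; exact hcube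
  have hkK : k ≤ K := by rw [hk, div_le_iff₀ he]; exact h
  have hke : n ^ 3 = k * e := by rw [hk]; field_simp
  have hK0 : 0 < K := by linarith
  have hk0 : 0 < k := by linarith
  rcases le_or_gt k (7 / 5) with hs | hl
  · refine (small_case hA hk1 hs hke).trans ?_
    refine mul_le_mul_of_nonneg_right ?_ hn.le
    calc k ^ 100 ≤ K ^ 100 := pow_le_pow_left₀ hk0.le hkK 100
      _ = K ^ ((100 : ℕ) : ℝ) := (Real.rpow_natCast K 100).symm
      _ ≤ _ := Real.rpow_le_rpow_of_exponent_le hK (by
        push_cast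
        exact le_max_left _ _)
  · have hL : 33 / 100 ≤ Real.log k := by
      rw [Real.le_log_iff_exp_le hk0]
      exact exp_aux6.trans hl.le
    have he2 : e = n ^ 3 * Real.exp (-Real.log k) := by
      rw [Real.exp_neg, Real.exp_log hk0, hke]
      field_simp
    refine (large_case hA hL he2).trans ?_
    refine mul_le_mul_of_nonneg_right ?_ hn.le
    have hlk : Real.log k ≤ Real.log K := Real.log_le_log hk0 hkK
    have hllk : Real.log (Real.log k) ≤ Real.log (Real.log K) :=
      Real.log_le_log (by linarith) hlk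
    rw [Real.rpow_def_of_pos hK0]
    refine Real.exp_le_exp.2 ?_
    rw [mul_comm (Real.log K)]
    refine mul_le_mul ?_ hlk (by linarith) (le_trans (by norm_num) (le_max_left _ _))
    exact max_le_max le_rfl (by linarith)

/-- **Theorem.** Let `A` be a finite nonempty subset of an abelian group with
`E(A) ≥ |A|^3 / K`. Then there is a nonempty `B ⊆ A` with `|B| ≥ |A| / K^100`,
normalised energy at least that of `A` times `(|A| / |B|)^(1/100)`, and doubling at most
`K^(max (100, 2 log log K + 7))`. -/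
theorem result {G : Type*} [AddCommGroup G] [DecidableEq G] (A : Finset G) (hA : A.Nonempty)
    (K : ℝ) (hK : 1 ≤ K) (hE : (A.card : ℝ) ^ 3 / K ≤ (energy A : ℝ)) :
    ∃ B : Finset G, B ⊆ A ∧ B.Nonempty ∧
      (A.card : ℝ) / K ^ 100 ≤ (B.card : ℝ) ∧
      (energy A : ℝ) / (A.card : ℝ) ^ 3 * ((A.card : ℝ) / (B.card : ℝ)) ^ (1 / 100 : ℝ) ≤
        (energy B : ℝ) / (B.card : ℝ) ^ 3 ∧
      ((B + B).card : ℝ) ≤
        K ^ (max 100 (2 * Real.log (Real.log K) + 7) : ℝ) * (B.card : ℝ) := by
  obtain ⟨B, hBA, hB, hmax⟩ := exists_ext hA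
  have ha : (0 : ℝ) < A.card := by exact_mod_cast Finset.card_pos.2 hA
  have hb := hB.card_pos
  have hK0 : 0 < K := by linarith
  have hba : (B.card : ℝ) ≤ A.card := by exact_mod_cast Finset.card_le_card hBA
  have heb := T_pos hB.1
  have hea := T_pos hA
  simp only [energy_eq] at hE ⊢
  set a : ℝ := (A.card : ℝ) with had
  set b : ℝ := (B.card : ℝ) with hbd
  set eA : ℝ := T A A A A with heA
  set eB : ℝ := T B B B B with heB
  -- the energy inequality
  have hen : eA / a ^ 3 * (a / b) ^ (1 / 100 : ℝ) ≤ eB / b ^ 3 := by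
    have e1 : a ^ 3 = a ^ (299 / 100 : ℝ) * a ^ (1 / 100 : ℝ) := by
      rw [← Real.rpow_add ha]
      norm_num
    have e2 : b ^ 3 = b ^ (299 / 100 : ℝ) * b ^ (1 / 100 : ℝ) := by
      rw [← Real.rpow_add hb]
      norm_num
    have ha1 : 0 < a ^ (1 / 100 : ℝ) := Real.rpow_pos_of_pos ha _
    have hb1 : 0 < b ^ (1 / 100 : ℝ) := Real.rpow_pos_of_pos hb _
    have ha2 : 0 < a ^ (299 / 100 : ℝ) := Real.rpow_pos_of_pos ha _
    have hb2 : 0 < b ^ (299 / 100 : ℝ) := Real.rpow_pos_of_pos hb _
    rw [e1, e2, Real.div_rpow ha.le hb.le]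
    have e3 : eA / (a ^ (299 / 100 : ℝ) * a ^ (1 / 100 : ℝ)) *
        (a ^ (1 / 100 : ℝ) / b ^ (1 / 100 : ℝ)) =
        eA / a ^ (299 / 100 : ℝ) / b ^ (1 / 100 : ℝ) := by
      field_simp
    have e4 : eB / (b ^ (299 / 100 : ℝ) * b ^ (1 / 100 : ℝ)) =
        eB / b ^ (299 / 100 : ℝ) / b ^ (1 / 100 : ℝ) := by
      field_simp
    rw [e3, e4]
    exact div_le_div_of_nonneg_right hmax hb1.le
  have hAK : 1 / K ≤ eA / a ^ 3 := by
    rw [div_le_div_iff₀ hK0 (by positivity)]
    rw [div_le_iff₀ hK0] at hE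
    linarith
  have hBle : eB / b ^ 3 ≤ 1 := by
    rw [div_le_one (by positivity)]
    exact T_cube B
  have hab1 : 1 ≤ a / b := by rw [one_le_div hb]; exact hba
  refine ⟨B, hBA, hB.1, ?_, hen, ?_⟩
  · -- size
    have h1 : 1 / K * (a / b) ^ (1 / 100 : ℝ) ≤ 1 :=
      ((mul_le_mul_of_nonneg_right hAK (by positivity)).trans hen).trans hBle
    have h2 : (a / b) ^ (1 / 100 : ℝ) ≤ K := by
      rw [div_mul_eq_mul_div, one_mul, div_le_one hK0] at h1
      exact h1
    have h3 : a / b ≤ K ^ 100 := by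
      have h4 : ((a / b) ^ (1 / 100 : ℝ)) ^ 100 ≤ K ^ 100 :=
        pow_le_pow_left₀ (by positivity) h2 100
      have h5 : ((a / b) ^ (1 / 100 : ℝ)) ^ 100 = a / b := by
        rw [← Real.rpow_natCast, ← Real.rpow_mul (by positivity)]
        norm_num
      rwa [h5] at h4
    rw [div_le_iff₀ hb] at h3
    rw [div_le_iff₀ (by positivity)]
    linarith
  · refine hB.doubling hK ?_
    have h1 : 1 ≤ (a / b) ^ (1 / 100 : ℝ) := Real.one_le_rpow hab1 (by norm_num)
    have h2 : 1 / K ≤ eB / b ^ 3 := by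
      refine hAK.trans (le_trans ?_ hen)
      have h3 : 0 ≤ eA / a ^ 3 := by positivity
      nlinarith
    rw [div_le_div_iff₀ hK0 (by positivity)] at h2
    linarith

end Pool.Agent.Results.MP_be00de_co.LogLogDoubling
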